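import Mathlib
import Pool.Agent.N783.PQ.Loc

/-!
# The map from `ℚ_p` to the completions of a number field

Project PQ (helper783), part CPL; this file by helper498.
-/

set_option autoImplicit false
set_option linter.all false

open IsDedekindDomain WithZero Filter Topology MonoidWithZeroHom NumberField

namespace Pool.Agent.N498.PQ

section

variable {L : Type} [Field L] [NumberField L] {p : ℕ} [hp : Fact p.Prime]
  {𝔓 : HeightOneSpectrum (𝓞 L)}

theorem val_nat_lt (h : (p : 𝓞 L) ∈ 𝔓.asIdeal) : 𝔓.valuation L (p : L) < 1 := by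
  have h1 : 𝔓.valuation L (algebraMap (𝓞 L) L (p : 𝓞 L)) < 1 :=
    (HeightOneSpectrum.valuation_lt_one_iff_mem (K := L) 𝔓 (p : 𝓞 L)).2 h
  rwa [map_natCast] at h1

theorem val_int_le (n : ℤ) : 𝔓.valuation L (n : L) ≤ 1 := by
  have h1 : 𝔓.valuation L (algebraMap (𝓞 L) L (n : 𝓞 L)) ≤ 1 :=
    HeightOneSpectrum.valuation_le_one (K := L) 𝔓 (n : 𝓞 L)
  rwa [map_intCast] at h1

theorem val_den (h : (p : 𝓞 L) ∈ 𝔓.asIdeal) (n : ℕ) (hn : ¬ p ∣ n) :
    𝔓.valuation L (n : L) = 1 := by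
  apply le_antisymm
  · have := val_int_le (L := L) (𝔓 := 𝔓) (n : ℤ)
    rwa [Int.cast_natCast] at this
  · by_contra hlt
    rw [not_le] at hlt
    have h1 : ((n : 𝓞 L)) ∈ 𝔓.asIdeal := by
      refine (HeightOneSpectrum.valuation_lt_one_iff_mem (K := L) 𝔓 (n : 𝓞 L)).1 ?_
      change 𝔓.valuation L (algebraMap (𝓞 L) L (n : 𝓞 L)) < 1
      rw [map_natCast]
      exact hlt
    have h2 : IsCoprime (p : ℤ) (n : ℤ) := by
      rw [Nat.isCoprime_iff_coprime]
      exact (Nat.Prime.coprime_iff_not_dvd hp.out).2 hn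
    obtain ⟨a, b, hab⟩ := h2
    have h3 : (1 : 𝓞 L) ∈ 𝔓.asIdeal := by
      have h4 : (1 : 𝓞 L) = (a : 𝓞 L) * (p : 𝓞 L) + (b : 𝓞 L) * (n : 𝓞 L) := by
        have := congrArg (fun z : ℤ => (z : 𝓞 L)) hab
        push_cast at this
        exact this.symm
      rw [h4]
      exact add_mem (Ideal.mul_mem_left _ _ h) (Ideal.mul_mem_left _ _ h1)
    exact 𝔓.isPrime.ne_top ((Ideal.eq_top_iff_one _).2 h3)

theorem val_le (h : (p : 𝓞 L) ∈ 𝔓.asIdeal) (x : ℚ) (hx : Rat.padicValuation p x ≤ 1) :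
    𝔓.valuation L (x : L) ≤ 1 := by
  rw [Rat.padicValuation_le_one_iff] at hx
  rw [Rat.cast_def, map_div₀, val_den h x.den hx, div_one]
  exact val_int_le _

theorem val_exp (h : (p : 𝓞 L) ∈ 𝔓.asIdeal) (n : ℕ) (x : ℚ)
    (hx : Rat.padicValuation p x ≤ Rat.padicValuation p ((p : ℚ) ^ n)) :
    𝔓.valuation L (x : L) ≤ exp (-(n : ℤ)) := by
  have hp0 : (p : ℚ) ≠ 0 := by exact_mod_cast hp.out.ne_zero
  have hpn : (p : ℚ) ^ n ≠ 0 := pow_ne_zero n hp0
  have hv : Rat.padicValuation p ((p : ℚ) ^ n) ≠ 0 := (Valuation.ne_zero_iff _).2 hpn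
  have h3 : Rat.padicValuation p (x / (p : ℚ) ^ n) ≤ 1 := by
    rw [map_div₀]
    exact (div_le_one₀ (zero_lt_iff.2 hv)).2 hx
  have h4 : 𝔓.valuation L (p : L) ≤ exp (-1 : ℤ) := by
    have h5 := val_nat_lt (L := L) h
    have h0 : 𝔓.valuation L (p : L) ≠ 0 := by
      rw [Valuation.ne_zero_iff]
      exact_mod_cast hp.out.ne_zero
    have h6 : exp (log (𝔓.valuation L (p : L))) = 𝔓.valuation L (p : L) := exp_log h0
    rw [← h6, ← exp_zero, exp_lt_exp] at h5
    rw [← h6, exp_le_exp]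
    omega
  have e : (x : L) = (p : L) ^ n * ((x / (p : ℚ) ^ n : ℚ) : L) := by
    have e1 : x = (p : ℚ) ^ n * (x / (p : ℚ) ^ n) := by field_simp
    conv_lhs => rw [e1]
    push_cast
    rfl
  rw [e, map_mul, map_pow]
  calc 𝔓.valuation L (p : L) ^ n * 𝔓.valuation L ((x / (p : ℚ) ^ n : ℚ) : L)
      ≤ exp (-1 : ℤ) ^ n * 1 := mul_le_mul' (pow_le_pow_left₀ zero_le h4 n) (val_le h _ h3)
    _ = exp (-(n : ℤ)) := by
      rw [mul_one, ← exp_nsmul]
      congr 1
      simp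

/-- `ℚ` with the topology of the `p`-adic valuation. -/
noncomputable def wf (p : ℕ) [Fact p.Prime] (𝔓 : HeightOneSpectrum (𝓞 L)) :
    WithVal (Rat.padicValuation p) →+* 𝔓.adicCompletion L :=
  ((algebraMap L (𝔓.adicCompletion L)).comp (algebraMap ℚ L)).comp
    (WithVal.equiv (Rat.padicValuation p)).toRingHom

theorem vx (x : L) : Valued.v (algebraMap L (𝔓.adicCompletion L) x) = 𝔓.valuation L x :=
  HeightOneSpectrum.valuedAdicCompletion_eq_valuation' 𝔓 x

theorem wf_cont (h : (p : 𝓞 L) ∈ 𝔓.asIdeal) : Continuous (wf p 𝔓) := by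
  have key : ContinuousAt (wf p 𝔓).toAddMonoidHom 0 := by
    show Tendsto (wf p 𝔓) (𝓝 0) (𝓝 (wf p 𝔓 0))
    rw [map_zero]
    intro s hs
    obtain ⟨γ, hγ⟩ := Valued.mem_nhds_zero.1 hs
    have hg : ValueGroup₀.embedding γ.1 ≠ 0 := by
      rw [Ne, map_eq_zero]
      exact γ.ne_zero
    obtain ⟨n, hn, -⟩ := exists_exp_neg_natCast_lt_and_lt hg hg
    have hp0 : (p : ℚ) ≠ 0 := by exact_mod_cast hp.out.ne_zero
    have hne : (Valued.v (R := WithVal (Rat.padicValuation p))).restrict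
        (WithVal.toVal (Rat.padicValuation p) ((p : ℚ) ^ n)) ≠ 0 := by
      rw [Valuation.ne_zero_iff]
      intro h
      exact pow_ne_zero n hp0 ((WithVal.toVal_eq_zero _ _).1 h)
    rw [Filter.mem_map, Valued.mem_nhds_zero]
    refine ⟨Units.mk0 _ hne, fun x hx => hγ ?_⟩
    have hx' : Valued.v x < Valued.v (WithVal.toVal (Rat.padicValuation p) ((p : ℚ) ^ n)) :=
      (Valuation.restrict_lt_iff _).1 hx
    show (Valued.v (R := 𝔓.adicCompletion L)).restrict (wf p 𝔓 x) < γ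
    rw [Valuation.restrict_lt_iff_lt_embedding]
    refine lt_of_le_of_lt ?_ hn
    have e : Valued.v (wf p 𝔓 x) = 𝔓.valuation L ((x.ofVal : ℚ) : L) :=
      vx (L := L) (𝔓 := 𝔓) (algebraMap ℚ L x.ofVal)
    rw [e]
    exact val_exp h n _ hx'.le
  exact continuous_of_continuousAt_zero (wf p 𝔓).toAddMonoidHom key

end

theorem cpl : Pool.Agent.N783.PQ.S_CPL := by
  intro L _ _ p hp 𝔓 h
  have h' : (p : 𝓞 L) ∈ 𝔓.asIdeal := h
  have hc := wf_cont (L := L) h'
  have hu : UniformContinuous (wf p 𝔓) :=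
    uniformContinuous_addMonoidHom_of_continuous (f := (wf p 𝔓).toAddMonoidHom) hc
  have hd := Padic.isDenseInducing_cast_withVal (p := p)
  set ι : ℚ_[p] →+* 𝔓.adicCompletion L := IsDenseInducing.extendRingHom
    (Padic.isUniformInducing_cast_withVal (p := p)) hd.dense hu with hι
  have hιc : Continuous ι :=
    (uniformContinuous_uniformly_extend (Padic.isUniformInducing_cast_withVal (p := p)) hd.dense
      hu).continuous
  have hιx : ∀ x : ℚ, ι (x : ℚ_[p]) = algebraMap L (𝔓.adicCompletion L) (x : L) := fun x =>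
    IsDenseInducing.extend_eq ((Padic.isUniformInducing_cast_withVal (p := p)).isDenseInducing
      hd.dense) hu.continuous (WithVal.toVal (Rat.padicValuation p) x)
  have hle : ∀ x : ℚ_[p], ‖x‖ ≤ 1 →
      Valued.v (Γ₀ := WithZero (Multiplicative ℤ)) (ι x) ≤ 1 := by
    intro x hx
    have key : ∀ z : ℤ_[p], ι (z : ℚ_[p]) ∈
        ((Valued.v (R := 𝔓.adicCompletion L) (Γ₀ := WithZero (Multiplicative ℤ))).valuationSubring :
          Set (𝔓.adicCompletion L)) := by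
      intro z
      refine PadicInt.denseRange_intCast.induction_on (p := fun z : ℤ_[p] => ι (z : ℚ_[p]) ∈
        ((Valued.v (R := 𝔓.adicCompletion L) (Γ₀ := WithZero (Multiplicative ℤ))).valuationSubring :
          Set (𝔓.adicCompletion L))) z ?_ ?_
      · exact (Valued.isClosed_valuationSubring (𝔓.adicCompletion L)).preimage
          (hιc.comp continuous_subtype_val)
      · intro n
        show Valued.v (ι ((n : ℤ_[p]) : ℚ_[p])) ≤ 1
        have e : (((n : ℤ_[p]) : ℚ_[p])) = ((n : ℚ) : ℚ_[p]) := by push_cast; rfl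
        rw [e, hιx, vx]
        have := val_int_le (L := L) (𝔓 := 𝔓) n
        simpa using this
    exact key ⟨x, hx⟩
  refine ⟨ι, hιx, hle, fun x hx => ?_⟩
  obtain ⟨y, hy⟩ := (PadicInt.norm_lt_one_iff_dvd (⟨x, hx.le⟩ : ℤ_[p])).1 hx
  have e : x = ((p : ℚ) : ℚ_[p]) * (y : ℚ_[p]) := by
    have := congrArg (fun z : ℤ_[p] => (z : ℚ_[p])) hy
    simpa using this
  rw [e, map_mul, map_mul, hιx, vx]
  have h1 : 𝔓.valuation L (((p : ℚ) : ℚ) : L) < 1 := by
    have := val_nat_lt (L := L) h'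
    simpa using this
  calc _ ≤ 𝔓.valuation L (((p : ℚ) : ℚ) : L) * 1 := mul_le_mul' le_rfl (hle _ y.2)
    _ < 1 := by rwa [mul_one]

end Pool.Agent.N498.PQ
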